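import Pool.Agent.Q120.FA.Fin4
import Pool.Agent.Q277.FA.L2
import Pool.Agent.Q277.FA.EU
import Pool.Agent.Q65.FA.MI
import Pool.Agent.Q65.FA.MA
import Pool.Agent.Q65.FA.TL
import Pool.Agent.Q151.FA.AR
import Pool.Agent.Q129.FA.AS
import Pool.Agent.Q224.FA.PF
import Pool.Agent.Q224.FA.UP
import Pool.Agent.Q192.FA.ME
import Pool.Agent.Q223.FA.EL
import Pool.Agent.Q223.FA.SZ
import Pool.Agent.Q190.FA.SL
import Pool.Agent.Q214.FA.SU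
import Pool.Agent.Q214.FA.SA
import Pool.Agent.Q210.FA.SM
import Pool.Agent.Q210.FA.SS
import Pool.Agent.Q96.FA.SE

set_option autoImplicit false

/-!
# The `L^p` theory of the Farey discrepancy and the zeros of the zeta function

The setting of Franel and Landau (1924), for all `p ≥ 1`: sharp asymptotic formulas for the `p`-th moments above the critical
exponent `1/(1-Θ)`, `Θ` the supremum of the real parts of the zeros, divergence below it, and the exponents for all `p`.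
-/

namespace Pool.Agent.Results.MP_5a4862_nt.FareyNorms

open MeasureTheory Filter Topology Set
open scoped ENNReal

open Classical in
/-- the Farey fractions `a/n`, `1 ≤ a ≤ n ≤ N`, `(a,n) = 1`, of order `N`, as pairs `(a,n)` -/
noncomputable def Farey (N : ℕ) : Finset (ℕ × ℕ) :=
  (Finset.Icc 1 N ×ˢ Finset.Icc 1 N).filter fun q : ℕ × ℕ => q.1 ≤ q.2 ∧ q.1.Coprime q.2

/-- the number `a/n` -/
noncomputable def val (q : ℕ × ℕ) : ℝ := (q.1 : ℝ) / (q.2 : ℝ)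

open Classical in
/-- the number of Farey fractions of order `N` that are at most `t` (for a Farey fraction `t` its index) -/
noncomputable def cnt (N : ℕ) (t : ℝ) : ℕ :=
  ((Finset.Icc 1 N ×ˢ Finset.Icc 1 N).filter fun q : ℕ × ℕ =>
    q.1 ≤ q.2 ∧ q.1.Coprime q.2 ∧ (q.1 : ℝ) / (q.2 : ℝ) ≤ t).card

/-- the discrepancy `E_N(t) = #{r ∈ F_N : r ≤ t} - Φ(N) t`, `Φ(N) = ∑_{n ≤ N} φ(n)` -/
noncomputable def E (N : ℕ) (t : ℝ) : ℝ := (cnt N t : ℝ) - (∑ n ∈ Finset.Icc 1 N, (n.totient : ℝ)) * t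

/-- the sum of Franel (`p = 2`) and Landau (`p = 1`), `D_p(N) = ∑_ν |r_ν - ν/Φ(N)|^p` -/
noncomputable def D (p : ℝ) (N : ℕ) : ℝ :=
  ∑ q ∈ Farey N, |val q - (cnt N (val q) : ℝ) / ((Farey N).card : ℝ)| ^ p

/-- `F(x) = ∑_{n ≤ x} (φ(n)/n)(1 - n/x) - 3x/π²` -/
noncomputable def F (x : ℝ) : ℝ :=
  ∑ n ∈ Finset.Icc 1 ⌊x⌋₊, (n.totient : ℝ) / (n : ℝ) * (1 - (n : ℝ) / x) - 3 / Real.pi ^ 2 * x

/-- `w(x) = x^(-2) ∑_{n ≤ x} φ(n)` -/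
noncomputable def w (x : ℝ) : ℝ := (∑ n ∈ Finset.Icc 1 ⌊x⌋₊, (n.totient : ℝ)) / x ^ 2

/-- `I_p(N) = N^(1-p) ∫_0^1 |E_N|^p` -/
noncomputable def I (p : ℝ) (N : ℕ) : ℝ≥0∞ :=
  (∫⁻ t in Icc (0 : ℝ) 1, ENNReal.ofReal (|E N t| ^ p)) / ENNReal.ofReal ((N : ℝ) ^ (p - 1))

/-- `J_p(N) = N^(p-1) D_p(N)` -/
noncomputable def J (p : ℝ) (N : ℕ) : ℝ≥0∞ := ENNReal.ofReal ((N : ℝ) ^ (p - 1) * D p N)

/-- `A_p = 2 (∑_q φ(q) q^(-p-1)) ∫_0^∞ |F|^p ∈ [0,∞]` -/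
noncomputable def A (p : ℝ) : ℝ≥0∞ :=
  2 * (∑' q : ℕ, ENNReal.ofReal ((q.totient : ℝ) / (q : ℝ) ^ (p + 1))) * ∫⁻ x in Ioi (0 : ℝ), ENNReal.ofReal (|F x| ^ p)

/-- `B_p = (π²/3)^p 2 (∑_q φ(q) q^(-p-1)) ∫_0^∞ |F|^p w ∈ [0,∞]` -/
noncomputable def B (p : ℝ) : ℝ≥0∞ :=
  ENNReal.ofReal ((Real.pi ^ 2 / 3) ^ p) *
    (2 * (∑' q : ℕ, ENNReal.ofReal ((q.totient : ℝ) / (q : ℝ) ^ (p + 1))) *
      ∫⁻ x in Ioi (0 : ℝ), ENNReal.ofReal (|F x| ^ p * w x))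

/-- the zeros of zeta in the critical strip -/
def Zeros : Set ℂ := {s | riemannZeta s = 0 ∧ 0 < s.re ∧ s.re < 1}

/-- the supremum `Θ` of their real parts -/
noncomputable def Th : ℝ := sSup (Complex.re '' Zeros)

/-- What is proved for the pairs `(X,K) = (I,A)` and `(X,K) = (J,B)`. -/
structure Law (X : ℝ → ℕ → ℝ≥0∞) (K : ℝ → ℝ≥0∞) : Prop where
  /-- above the critical exponent `1/(1-Θ)`: finite positive limits -/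
  above : ∀ p : ℝ, 1 < p → Th < 1 - 1 / p → K p ≠ 0 ∧ K p ≠ ⊤ ∧ Tendsto (X p) atTop (𝓝 (K p))
  /-- below it, and for `p ≤ 2`, and at it if `Θ` is attained: infinite limits -/
  below : ∀ p : ℝ, 1 ≤ p → (p ≤ 2 ∨ ∃ ρ ∈ Zeros, 1 - 1 / p ≤ ρ.re) → K p = ⊤ ∧ Tendsto (X p) atTop (𝓝 ⊤)
  /-- the constants determine `Θ` -/
  crit : Th < 1 → IsGLB {p : ℝ | 1 ≤ p ∧ K p ≠ ⊤} (1 / (1 - Th))
  /-- the Riemann hypothesis -/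
  rh : List.TFAE [RiemannHypothesis,
    ∀ p : ℝ, 2 < p → K p ≠ ⊤ ∧ Tendsto (X p) atTop (𝓝 (K p)),
    ∀ p : ℝ, 2 < p → K p ≠ ⊤,
    ∀ ε : ℝ, 0 < ε → ∃ p : ℝ, 1 ≤ p ∧ p < 2 + ε ∧ ∃ B : ℝ≥0∞, B ≠ ⊤ ∧ ∃ᶠ N : ℕ in atTop, X p N ≤ B]
  /-- zero-free half-planes -/
  half : ∀ θ : ℝ, 1 / 2 ≤ θ → θ < 1 → List.TFAE [∀ s : ℂ, θ < s.re → riemannZeta s ≠ 0,
    ∀ p : ℝ, 1 / (1 - θ) < p → K p ≠ ⊤ ∧ Tendsto (X p) atTop (𝓝 (K p)),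
    ∀ p : ℝ, 1 / (1 - θ) < p → K p ≠ ⊤,
    ∀ ε : ℝ, 0 < ε → ∃ p : ℝ, 1 ≤ p ∧ p < 1 / (1 - θ) + ε ∧ ∃ B : ℝ≥0∞, B ≠ ⊤ ∧ ∃ᶠ N : ℕ in atTop, X p N ≤ B]
  /-- the existence of a zero-free half-plane -/
  plane : List.TFAE [∃ σ₀ : ℝ, 1 / 2 < σ₀ ∧ σ₀ < 1 ∧ ∀ s : ℂ, σ₀ ≤ s.re → riemannZeta s ≠ 0,
    ∃ p : ℝ, 1 ≤ p ∧ K p ≠ ⊤ ∧ Tendsto (X p) atTop (𝓝 (K p)),
    ∃ p : ℝ, 1 ≤ p ∧ K p ≠ ⊤,
    ∃ p : ℝ, 1 ≤ p ∧ ∃ B : ℝ≥0∞, B ≠ ⊤ ∧ ∃ᶠ N : ℕ in atTop, X p N ≤ B]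

open Pool.Agent.Q120.FA in
private lemma conv {X : ℝ → ℕ → ℝ≥0∞} {K : ℝ → ℝ≥0∞} (h : Pool.Agent.Q120.FA.Law X K) : Law X K :=
  ⟨h.above, h.below, h.crit, h.rh, h.half, h.plane⟩

/-- **Theorem.** -/
theorem result :
    (∀ p : ℝ, 1 ≤ p →
      Tendsto (fun N : ℕ => Real.log ((∫ t in (0 : ℝ)..1, |E N t| ^ p) ^ (1 / p)) / Real.log N) atTop
        (𝓝 (max Th (1 - 1 / p))) ∧
      Tendsto (fun N : ℕ => Real.log (D p N) / Real.log N) atTop (𝓝 (max (1 - p) (2 - 2 * p + p * Th))) ∧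
      (p ≤ 2 → (RiemannHypothesis ↔
        Tendsto (fun N : ℕ => Real.log ((∫ t in (0 : ℝ)..1, |E N t| ^ p) ^ (1 / p)) / Real.log N) atTop (𝓝 (1 / 2)))) ∧
      (2 ≤ p → ((∀ s : ℂ, 1 - 1 / p < s.re → riemannZeta s ≠ 0) ↔
        Tendsto (fun N : ℕ => Real.log ((∫ t in (0 : ℝ)..1, |E N t| ^ p) ^ (1 / p)) / Real.log N) atTop
          (𝓝 (1 - 1 / p))))) ∧
    Law I A ∧ Law J B := by
  have hID := Pool.Agent.Q277.FA.t_ID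
  have hL2 := Pool.Agent.Q277.FA.t_L2
  have hEU := Pool.Agent.Q277.FA.t_EU
  have hMI := Pool.Agent.Q65.FA.t_MI
  have hMA := Pool.Agent.Q65.FA.t_MA
  have hTL := Pool.Agent.Q65.FA.t_TL
  have hAR := Pool.Agent.Q151.FA.t_AR hMA
  have hAS := Pool.Agent.Q129.FA.t_AS hL2 hMI hAR
  have hPF := Pool.Agent.Q224.FA.t_PF
  have hUP := Pool.Agent.Q224.FA.t_UP hID hTL hAS hPF
  have hZR := Pool.Agent.Q124.FA.t_ZR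
  have hME := Pool.Agent.Q192.FA.t_ME
  have hEL := Pool.Agent.Q223.FA.t_EL
  have hSZ := Pool.Agent.Q223.FA.t_SZ
  have hSL := Pool.Agent.Q190.FA.t_SL
  have hSU := Pool.Agent.Q214.FA.t_SU
  have hSA := Pool.Agent.Q214.FA.t_SA
  have hSS := Pool.Agent.Q210.FA.t_SS hSU hSA hSL
  have hSE := Pool.Agent.Q96.FA.t_SE
  refine ⟨fun p hp => ?_, conv (Pool.Agent.Q120.FA.law_int hUP hZR hME),
    conv (Pool.Agent.Q120.FA.law_sum hSS hSZ hSA hME)⟩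
  have h1 := Pool.Agent.Q120.FA.expo hZR hEL hEU p hp
  have h2 := Pool.Agent.Q120.FA.expoS hSL hSZ hSA hSE hEU p hp
  have h3 := Pool.Agent.Q120.FA.one_p _ p h1
  exact ⟨h1, h2, fun h => h3.1 h hp, h3.2⟩

end Pool.Agent.Results.MP_5a4862_nt.FareyNorms
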